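import Pool.Agent.Y250.SS.Stm

set_option autoImplicit false

/-! Half of the sup bound: estimates on lines and summation. -/

namespace Pool.Agent.Y739.SS

open MeasureTheory Set Complex Filter Topology
open scoped ENNReal NNReal
open Pool.Agent.Y183.PP hiding HF
open Pool.Agent.Y250.SS

/-! ### Calculus -/

/-- the polynomial `1 + x ^ 2 + y ^ 2` -/
noncomputable def wp : Poly := MvPolynomial.C 1 + MvPolynomial.X 0 ^ 2 + MvPolynomial.X 1 ^ 2

lemma ev_wp (z : ℝ × ℝ) : ev wp z = w z := by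
  simp only [wp, w, ev_add, ev_pow, ev_C, ev_X0, ev_X1]

lemma w_pos (z : ℝ × ℝ) : 0 < w z := by
  unfold w
  positivity

lemma one_le_w (z : ℝ × ℝ) : 1 ≤ w z := by
  unfold w
  nlinarith [sq_nonneg z.1, sq_nonneg z.2]

lemma w_cont : Continuous w := by
  unfold w
  fun_prop

/-- numerator of the first derivative of `f / w ^ m` in the first variable -/
noncomputable def dn (m : ℕ) (f : Poly) : Poly :=
  wp * MvPolynomial.pderiv 0 f - MvPolynomial.C (2 * (m : ℝ)) * MvPolynomial.X 0 * f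

/-- the same for the second variable -/
noncomputable def dn' (m : ℕ) (f : Poly) : Poly :=
  wp * MvPolynomial.pderiv 1 f - MvPolynomial.C (2 * (m : ℝ)) * MvPolynomial.X 1 * f

lemma ev_deriv2 (p : Poly) (x y : ℝ) :
    HasDerivAt (fun y => ev p (x, y)) (ev (MvPolynomial.pderiv 1 p) (x, y)) y := by
  have h1 : HasFDerivAt (fun y : ℝ => ((x, y) : ℝ × ℝ))
      ((0 : ℝ →L[ℝ] ℝ).prod (ContinuousLinearMap.id ℝ ℝ)) y :=
    (hasFDerivAt_const x y).prodMk (hasFDerivAt_id y)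
  have h2 := ((ev_fderiv p (x, y)).comp y h1).hasDerivAt
  have e : (dv p (x, y)).comp ((0 : ℝ →L[ℝ] ℝ).prod (ContinuousLinearMap.id ℝ ℝ)) 1 =
      ev (MvPolynomial.pderiv 1 p) (x, y) := by simp [dv]
  rw [e] at h2
  exact h2

lemma quot_deriv (f f' W : ℝ → ℝ) (W' : ℝ) (m : ℕ) (x : ℝ) (hf : HasDerivAt f (f' x) x)
    (hW : HasDerivAt W W' x) (hpos : 0 < W x) :
    HasDerivAt (fun x => f x / W x ^ m) ((W x * f' x - m * W' * f x) / W x ^ (m + 1)) x := by
  have h1 := hf.div (hW.pow m) (pow_ne_zero m hpos.ne')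
  refine h1.congr_deriv ?_
  have := hpos.ne'
  rcases m with _ | m
  · simp
    field_simp
  · simp only [Nat.add_sub_cancel, Pi.pow_apply]
    push_cast
    field_simp
    try ring

lemma dn_deriv (m : ℕ) (f : Poly) (x y : ℝ) :
    HasDerivAt (fun x => ev f (x, y) / w (x, y) ^ m)
      (ev (dn m f) (x, y) / w (x, y) ^ (m + 1)) x := by
  have hW : HasDerivAt (fun x => w (x, y)) (2 * x) x := by
    unfold w
    simp only
    have h := (((hasDerivAt_id x).pow 2).const_add 1).add_const (y ^ 2)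
    refine h.congr_deriv ?_
    simp
  have h1 := quot_deriv (fun x => ev f (x, y)) (fun x => ev (MvPolynomial.pderiv 0 f) (x, y))
    (fun x => w (x, y)) (2 * x) m x (ev_deriv1 f x y) hW (w_pos _)
  refine h1.congr_deriv ?_
  congr 1
  simp only [dn, ev_sub, ev_mul, ev_wp, ev_C, ev_X0]
  ring

lemma dn'_deriv (m : ℕ) (f : Poly) (x y : ℝ) :
    HasDerivAt (fun y => ev f (x, y) / w (x, y) ^ m)
      (ev (dn' m f) (x, y) / w (x, y) ^ (m + 1)) y := by
  have hW : HasDerivAt (fun y => w (x, y)) (2 * y) y := by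
    unfold w
    simp only
    have h := ((hasDerivAt_id y).pow 2).const_add (1 + x ^ 2)
    refine h.congr_deriv ?_
    simp
  have h1 := quot_deriv (fun y => ev f (x, y)) (fun y => ev (MvPolynomial.pderiv 1 f) (x, y))
    (fun y => w (x, y)) (2 * y) m y (ev_deriv2 f x y) hW (w_pos _)
  refine h1.congr_deriv ?_
  congr 1
  simp only [dn', ev_sub, ev_mul, ev_wp, ev_C, ev_X1]
  ring

lemma deg_wp : wp.totalDegree ≤ 2 := by
  have hX : ∀ i : Fin 2, (MvPolynomial.X i : Poly).totalDegree ≤ 1 := fun i => by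
    rw [MvPolynomial.totalDegree_X]
  unfold wp
  exact deg_add (deg_add (deg_C _ _) (deg_sq (hX 0))) (deg_sq (hX 1))

lemma deg_dn {m : ℕ} {f : Poly} {D : ℕ} (hf : f.totalDegree ≤ D) : (dn m f).totalDegree ≤ D + 2 := by
  unfold dn
  apply deg_sub
  · exact (deg_mul deg_wp ((deg_pderiv f 0).trans hf)).trans (by omega)
  · have hX : (MvPolynomial.X 0 : Poly).totalDegree ≤ 1 := by rw [MvPolynomial.totalDegree_X]
    exact (deg_mul (deg_mul (deg_C _ 0) hX) hf).trans (by omega)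

lemma deg_dn' {m : ℕ} {f : Poly} {D : ℕ} (hf : f.totalDegree ≤ D) :
    (dn' m f).totalDegree ≤ D + 2 := by
  unfold dn'
  apply deg_sub
  · exact (deg_mul deg_wp ((deg_pderiv f 1).trans hf)).trans (by omega)
  · have hX : (MvPolynomial.X 1 : Poly).totalDegree ≤ 1 := by rw [MvPolynomial.totalDegree_X]
    exact (deg_mul (deg_mul (deg_C _ 0) hX) hf).trans (by omega)

/-- the phase is the quotient -/
lemma Ps_eq {P : Poly3} {n : ℕ} {Q : Poly} (hQ : ∀ u : ℝ × ℝ, ev Q u = w u ^ n *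
    ev3 P (2 * u.1 / w u) (2 * u.2 / w u) (1 - 2 / w u)) (u : ℝ × ℝ) :
    Ps P u = ev Q u / w u ^ n := by
  rw [hQ]
  unfold Ps
  have := (pow_pos (w_pos u) n).ne'
  field_simp

lemma Ps_ph (hXF : S_XF) (P : Poly3) (u : ℝ × ℝ) (hu : u.1 ^ 2 + u.2 ^ 2 ≤ 1) :
    Ps P u = ph P (X u) := by
  unfold ph Ps
  rw [hXF.1 u hu]
  have := (w_pos u).ne'
  congr 1
  field_simp
  ring

lemma grad_eq (hGR : S_GR) (hXD : S_XD) (hXF : S_XF) {P : Poly3} {n : ℕ} {Q : Poly}
    (hQ : ∀ u : ℝ × ℝ, ev Q u = w u ^ n *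
      ev3 P (2 * u.1 / w u) (2 * u.2 / w u) (1 - 2 / w u)) (x y : ℝ) (hu : x ^ 2 + y ^ 2 < 1) :
    Eu1 P (x, y) = ev (dn n Q) (x, y) / w (x, y) ^ (n + 1) ∧
    Eu2 P (x, y) = ev (dn' n Q) (x, y) / w (x, y) ^ (n + 1) := by
  have hX := hXF.2.1 (x, y) hu
  have h1 := (hGR P (X (x, y)) hX).1
  have h2 : HasFDerivAt (fun u => ph P (X u)) ((lf (g1 P (X (x, y))) (g2 P (X (x, y)))).comp
      ((lf (X11 (x, y)) (X12 (x, y))).prod (lf (X12 (x, y)) (X22 (x, y))))) (x, y) :=
    h1.comp (x, y) (hXD (x, y))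
  have hopen : ∀ᶠ u : ℝ × ℝ in 𝓝 (x, y), u.1 ^ 2 + u.2 ^ 2 < 1 :=
    (isOpen_lt (by fun_prop) continuous_const).mem_nhds hu
  have h3 : HasFDerivAt (Ps P) ((lf (g1 P (X (x, y))) (g2 P (X (x, y)))).comp
      ((lf (X11 (x, y)) (X12 (x, y))).prod (lf (X12 (x, y)) (X22 (x, y))))) (x, y) := by
    refine h2.congr_of_eventuallyEq ?_
    filter_upwards [hopen] with u hu
    exact Ps_ph hXF P u hu.le
  constructor
  · have i1 : HasFDerivAt (fun x : ℝ => ((x, y) : ℝ × ℝ))
        ((ContinuousLinearMap.id ℝ ℝ).prod (0 : ℝ →L[ℝ] ℝ)) x :=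
      (hasFDerivAt_id x).prodMk (hasFDerivAt_const y x)
    have i2 := (h3.comp x i1).hasDerivAt
    have i3 : HasDerivAt (fun x => Ps P (x, y)) (ev (dn n Q) (x, y) / w (x, y) ^ (n + 1)) x := by
      have : (fun x => Ps P (x, y)) = fun x => ev Q (x, y) / w (x, y) ^ n :=
        funext fun x => Ps_eq hQ (x, y)
      rw [this]
      exact dn_deriv n Q x y
    rw [← i2.unique i3]
    simp [Eu1, lf]
    ring
  · have i1 : HasFDerivAt (fun y : ℝ => ((x, y) : ℝ × ℝ))
        ((0 : ℝ →L[ℝ] ℝ).prod (ContinuousLinearMap.id ℝ ℝ)) y :=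
      (hasFDerivAt_const x y).prodMk (hasFDerivAt_id y)
    have i2 := (h3.comp y i1).hasDerivAt
    have i3 : HasDerivAt (fun y => Ps P (x, y)) (ev (dn' n Q) (x, y) / w (x, y) ^ (n + 1)) y := by
      have : (fun y => Ps P (x, y)) = fun y => ev Q (x, y) / w (x, y) ^ n :=
        funext fun y => Ps_eq hQ (x, y)
      rw [this]
      exact dn'_deriv n Q x y
    rw [← i2.unique i3]
    simp [Eu2, lf]
    ring

/-! ### Constant signs -/

lemma CS_pos {F : ℝ → ℝ} {u v : ℝ} (h : CS F u v) {x x' : ℝ} (hx : x ∈ Ioo u v)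
    (hx' : x' ∈ Ioo u v) : 0 < F x ↔ 0 < F x' := by
  rcases h with h | h | h
  · exact ⟨fun _ => h x' hx', fun _ => h x hx⟩
  · rw [h x hx, h x' hx']
  · have h1 := h x hx
    have h2 := h x' hx'
    constructor <;> intro h3 <;> linarith

lemma CS_nonneg {F : ℝ → ℝ} {u v : ℝ} (h : CS F u v) {x x' : ℝ} (hx : x ∈ Ioo u v)
    (hx' : x' ∈ Ioo u v) : 0 ≤ F x ↔ 0 ≤ F x' := by
  rcases h with h | h | h
  · exact ⟨fun _ => (h x' hx').le, fun _ => (h x hx).le⟩
  · rw [h x hx, h x' hx']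
  · have h1 := h x hx
    have h2 := h x' hx'
    constructor <;> intro h3 <;> linarith

lemma CS_mul {F G : ℝ → ℝ} {u v : ℝ} (h : CS F u v) (h' : CS G u v) :
    CS (fun x => F x * G x) u v := by
  rcases h with h | h | h
  · rcases h' with h' | h' | h'
    · exact Or.inl fun x hx => mul_pos (h x hx) (h' x hx)
    · exact Or.inr (Or.inl fun x hx => by simp only [h' x hx, mul_zero])
    · exact Or.inr (Or.inr fun x hx => mul_neg_of_pos_of_neg (h x hx) (h' x hx))
  · exact Or.inr (Or.inl fun x hx => by simp only [h x hx, zero_mul])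
  · rcases h' with h' | h' | h'
    · exact Or.inr (Or.inr fun x hx => mul_neg_of_neg_of_pos (h x hx) (h' x hx))
    · exact Or.inr (Or.inl fun x hx => by simp only [h' x hx, mul_zero])
    · exact Or.inl fun x hx => mul_pos_of_neg_of_neg (h x hx) (h' x hx)

/-! ### The estimate on a line -/

lemma line (Φ Φ1 Φ2 : ℝ → ℝ) (h1 : ∀ x, HasDerivAt Φ (Φ1 x) x)
    (h2 : ∀ x, HasDerivAt Φ1 (Φ2 x) x) (hc : Continuous Φ2) (S : Set ℝ) (hS : MeasurableSet S)
    (N : ℕ) (Z : Finset ℝ) (hZc : Z.card ≤ N)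
    (hZ : ∀ u v : ℝ, (∀ z ∈ Z, z ∉ Ioo u v) → (∀ x ∈ Ioo u v, ∀ x' ∈ Ioo u v, (x ∈ S ↔ x' ∈ S)) ∧
      CS Φ2 u v)
    (g : ℝ → ℂ) (hg : Measurable g) (B V : ℝ) (hB : 0 ≤ B) (hV : 0 ≤ V) (hgB : ∀ x, ‖g x‖ ≤ B)
    (hvar : eVariationOn g (Icc (-1) 1) ≤ ENNReal.ofReal V) (lam : ℝ) (hl : 0 < lam)
    (hlow : ∀ x ∈ S, lam ≤ |Φ1 x|) :
    ‖∫ x in (-1 : ℝ)..1, S.indicator (fun x => g x * cexp ((Φ x : ℂ) * I)) x‖ ≤
      (N + 1) * ((3 / lam) * (B + V)) := by
  have hc1 : Continuous Φ1 := continuous_iff_continuousAt.mpr fun x => (h2 x).continuousAt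
  have hc0 : Continuous Φ := continuous_iff_continuousAt.mpr fun x => (h1 x).continuousAt
  have hec : Continuous fun x => cexp ((Φ x : ℂ) * I) :=
    Complex.continuous_exp.comp ((continuous_ofReal.comp hc0).mul continuous_const)
  have hen : ∀ x, ‖cexp ((Φ x : ℂ) * I)‖ = 1 := fun x => Complex.norm_exp_ofReal_mul_I _
  have hmeas : Measurable (S.indicator (fun x => g x * cexp ((Φ x : ℂ) * I))) :=
    (hg.mul hec.measurable).indicator hS
  have hbd : ∀ x, ‖S.indicator (fun x => g x * cexp ((Φ x : ℂ) * I)) x‖ ≤ B := by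
    intro x
    by_cases h : x ∈ S
    · rw [indicator_of_mem h, norm_mul, hen, mul_one]
      exact hgB _
    · rw [indicator_of_notMem h, norm_zero]
      exact hB
  have hint : ∀ c d : ℝ, IntervalIntegrable (S.indicator (fun x => g x * cexp ((Φ x : ℂ) * I)))
      volume c d := by
    intro c d
    rw [intervalIntegrable_iff]
    exact Measure.integrableOn_of_bounded (M := B) (by simp) hmeas.aestronglyMeasurable
      (ae_of_all _ fun x => hbd _)
  refine gaps _ ((3 / lam) * (B + V)) (by positivity) N Z hZc (-1) 1 (by norm_num) (hint _ _) ?_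
  intro u v hu huv hv hZu
  rcases eq_or_lt_of_le huv with heq | hlt
  · rw [heq, intervalIntegral.integral_same, norm_zero]
    positivity
  obtain ⟨hcs, hcs2⟩ := hZ u v hZu
  by_cases hex : ∃ x ∈ Ioo u v, x ∈ S
  swap
  · have e : ∫ x in u..v, S.indicator (fun x => g x * cexp ((Φ x : ℂ) * I)) x = 0 := by
      rw [intervalIntegral.integral_of_le huv, integral_Ioc_eq_integral_Ioo]
      rw [setIntegral_congr_fun (g := fun _ => (0 : ℂ)) measurableSet_Ioo]
      · simp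
      · intro x hx
        exact indicator_of_notMem (fun h => hex ⟨x, hx, h⟩) _
    rw [e, norm_zero]
    positivity
  obtain ⟨x0, hx0, hx0S⟩ := hex
  have hin : ∀ x ∈ Ioo u v, x ∈ S := fun x hx => (hcs x0 hx0 x hx).1 hx0S
  have e : ∫ x in u..v, S.indicator (fun x => g x * cexp ((Φ x : ℂ) * I)) x =
      ∫ x in u..v, g x * cexp ((Φ x : ℂ) * I) := by
    rw [intervalIntegral.integral_of_le huv, integral_Ioc_eq_integral_Ioo,
      intervalIntegral.integral_of_le huv, integral_Ioc_eq_integral_Ioo]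
    apply setIntegral_congr_fun measurableSet_Ioo
    intro x hx
    exact indicator_of_mem (hin x hx) _
  rw [e]
  have hlow' : ∀ x ∈ Icc u v, lam ≤ |Φ1 x| := by
    apply closed_ext hlt {x | lam ≤ |Φ1 x|} (isClosed_le continuous_const hc1.abs)
    intro x hx
    exact hlow x (hin x hx)
  have hsg : (∀ x ∈ Icc u v, 0 ≤ Φ2 x) ∨ (∀ x ∈ Icc u v, Φ2 x ≤ 0) := by
    rcases hcs2 with h | h | h
    · left
      exact closed_ext hlt {x | 0 ≤ Φ2 x} (isClosed_le continuous_const hc) fun x hx => (h x hx).le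
    · left
      exact closed_ext hlt {x | 0 ≤ Φ2 x} (isClosed_le continuous_const hc) fun x hx => (h x hx).ge
    · right
      exact closed_ext hlt {x | Φ2 x ≤ 0} (isClosed_le hc continuous_const) fun x hx => (h x hx).le
  exact bv_amp g (fun x => cexp ((Φ x : ℂ) * I)) hg hec (fun x => (hen x).le) u v huv (3 / lam) B V
    (by positivity) hV (fun x _ => hgB x)
    (le_trans (eVariationOn.mono _ (Icc_subset_Icc hu hv)) hvar) (by
      intro x hx
      apply vdc Φ Φ1 Φ2 h1 h2 hc u x hx.1 lam hl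
      · intro t ht
        exact hlow' t ⟨ht.1, ht.2.trans hx.2⟩
      · rcases hsg with h | h
        · left; intro t ht; exact h t ⟨ht.1, ht.2.trans hx.2⟩
        · right; intro t ht; exact h t ⟨ht.1, ht.2.trans hx.2⟩)

/-! ### The amplitude -/

lemma jac_le (z : ℝ × ℝ) : |jac z| ≤ 4 := by
  unfold jac
  have hw := one_le_w z
  have h3 : 0 < w z ^ 3 := pow_pos (w_pos z) 3
  rw [abs_div, abs_of_pos h3, div_le_iff₀ h3, abs_mul]
  have h1 : |(4 : ℝ)| = 4 := by norm_num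
  rw [h1]
  have h2 : |2 - w z| ≤ w z ^ 3 := by
    have h4 : w z ≤ w z ^ 3 := by
      have := pow_le_pow_right₀ hw (show 1 ≤ 3 by norm_num)
      simpa using this
    rw [abs_le]
    constructor
    · linarith
    · linarith
  linarith

lemma jac_deriv (x y : ℝ) : HasDerivAt (fun x => jac (x, y))
    (16 * x * (w (x, y) - 3) / w (x, y) ^ 4) x := by
  have hW : HasDerivAt (fun x => w (x, y)) (2 * x) x := by
    unfold w
    simp only
    have h := (((hasDerivAt_id x).pow 2).const_add 1).add_const (y ^ 2)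
    refine h.congr_deriv ?_
    simp
  have h1 : HasDerivAt (fun x => 4 * (2 - w (x, y))) (4 * (-(2 * x))) x :=
    ((hW.const_sub 2)).const_mul 4
  have h2 := quot_deriv (fun x => 4 * (2 - w (x, y))) (fun x => 4 * (-(2 * x)))
    (fun x => w (x, y)) (2 * x) 3 x h1 hW (w_pos _)
  refine h2.congr_deriv ?_
  push_cast
  congr 1
  ring

lemma jac_deriv_le (x y : ℝ) : |16 * x * (w (x, y) - 3) / w (x, y) ^ 4| ≤ 32 := by
  have hw := one_le_w (x, y)
  have h4 : 0 < w (x, y) ^ 4 := pow_pos (w_pos _) 4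
  rw [abs_div, abs_of_pos h4, div_le_iff₀ h4, abs_mul, abs_mul]
  have h1 : |(16 : ℝ)| = 16 := by norm_num
  rw [h1]
  have hx : |x| ≤ w (x, y) := by
    have h5 : |x| ≤ 1 + x ^ 2 := by
      rw [abs_le]
      constructor <;> nlinarith [sq_nonneg (x - 1), sq_nonneg (x + 1)]
    have h6 : 1 + x ^ 2 ≤ w (x, y) := by
      unfold w
      simp only
      nlinarith [sq_nonneg y]
    linarith
  have hw3 : |w (x, y) - 3| ≤ 2 * w (x, y) := by
    rw [abs_le]
    constructor <;> linarith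
  have h7 : |x| * |w (x, y) - 3| ≤ w (x, y) * (2 * w (x, y)) :=
    mul_le_mul hx hw3 (abs_nonneg _) (by linarith)
  have h8 : w (x, y) * w (x, y) ≤ w (x, y) ^ 4 := by
    have := pow_le_pow_right₀ hw (show 2 ≤ 4 by norm_num)
    nlinarith
  nlinarith

lemma jac_lip (y : ℝ) : LipschitzWith 32 (fun x => jac (x, y)) := by
  apply lipschitzWith_of_nnnorm_deriv_le
  · intro x
    exact (jac_deriv x y).differentiableAt
  · intro x
    rw [(jac_deriv x y).deriv]
    rw [← NNReal.coe_le_coe, coe_nnnorm, Real.norm_eq_abs]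
    exact jac_deriv_le x y

lemma jac_cont : Continuous jac := by
  unfold jac
  exact (continuous_const.mul (continuous_const.sub w_cont)).div (w_cont.pow 3)
    fun z => (pow_pos (w_pos z) 3).ne'

lemma jac_var (y : ℝ) : eVariationOn (fun x => ((jac (x, y) : ℝ) : ℂ)) (Icc (-1) 1) ≤
    ENNReal.ofReal 64 := by
  have h1 : LipschitzOnWith 32 (fun x : ℝ => ((jac (x, y) : ℝ) : ℂ)) (Icc (-1) 1) := by
    have h2 : LipschitzWith (1 * 32) (fun x : ℝ => ((jac (x, y) : ℝ) : ℂ)) :=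
      (Complex.isometry_ofReal.lipschitz).comp (jac_lip y)
    rw [one_mul] at h2
    exact h2.lipschitzOnWith
  have h3 := h1.comp_eVariationOn_le (g := id) (s := Icc (-1 : ℝ) 1) (fun x hx => hx)
  have h4 : eVariationOn (id : ℝ → ℝ) (Icc (-1 : ℝ) 1) ≤ ENNReal.ofReal 2 := by
    have h5 : MonotoneOn (id : ℝ → ℝ) (Icc (-1 : ℝ) 1) := monotone_id.monotoneOn _
    have h6 := h5.eVariationOn_eq (left_mem_Icc.2 (by norm_num)) (right_mem_Icc.2 (by norm_num))
    rw [inter_self] at h6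
    refine h6.le.trans (le_of_eq ?_)
    congr 1
    simp only [id]
    norm_num
  refine (h3.trans (mul_le_mul_right h4 _)).trans (le_of_eq ?_)
  rw [show ((32 : ℝ≥0) : ℝ≥0∞) = ENNReal.ofReal 32 by simp, ← ENNReal.ofReal_mul (by norm_num)]
  norm_num

/-! ### The region -/

/-- the polynomial defining the disc -/
noncomputable def pU (n : ℕ) : Poly :=
  MvPolynomial.C (1 / (6 * (n : ℝ))) - MvPolynomial.X 0 ^ 2 - MvPolynomial.X 1 ^ 2

lemma ev_pU (n : ℕ) (z : ℝ × ℝ) : 0 < ev (pU n) z ↔ z ∈ U n := by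
  simp only [pU, ev_sub, ev_pow, ev_C, ev_X0, ev_X1, U, mem_ofPred_eq]
  constructor <;> intro h <;> linarith

lemma deg_pU (n : ℕ) : (pU n).totalDegree ≤ 2 := by
  have hX : ∀ i : Fin 2, (MvPolynomial.X i : Poly).totalDegree ≤ 1 := fun i => by
    rw [MvPolynomial.totalDegree_X]
  unfold pU
  exact deg_sub (deg_sub (deg_C _ _) (deg_sq (hX 0))) (deg_sq (hX 1))

/-- the region, by polynomials -/
def RR (n : ℕ) (p q p' q' a1 a2 : Poly) (b : Bool) : Set (ℝ × ℝ) :=
  {u | 0 < ev (pU n) u ∧ (0 < ev p u ∧ 0 < ev q u) ∧ ¬ (0 < ev p' u ∧ 0 < ev q' u) ∧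
    if b then 0 < ev a1 u * ev a2 u else 0 ≤ ev a1 u * ev a2 u}

lemma RR_meas (n : ℕ) (p q p' q' a1 a2 : Poly) (b : Bool) :
    MeasurableSet (RR n p q p' q' a1 a2 b) := by
  have h : ∀ p : Poly, MeasurableSet {z | 0 < ev p z} := fun p =>
    (isOpen_lt continuous_const (ev_cont p)).measurableSet
  have hb : MeasurableSet {u | if b then 0 < ev a1 u * ev a2 u else 0 ≤ ev a1 u * ev a2 u} := by
    cases b
    · simp only [Bool.false_eq_true, if_false]
      exact (isClosed_le continuous_const ((ev_cont _).mul (ev_cont _))).measurableSet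
    · simp only [if_true]
      exact (isOpen_lt continuous_const ((ev_cont _).mul (ev_cont _))).measurableSet
  exact (h _).inter (((h _).inter (h _)).inter (((h _).inter (h _)).compl.inter hb))

lemma U_lt {n : ℕ} (hn : 1 ≤ n) {u : ℝ × ℝ} (hu : u ∈ U n) : u.1 ^ 2 + u.2 ^ 2 < 1 := by
  have h1 : u.1 ^ 2 + u.2 ^ 2 < 1 / (6 * n) := hu
  have h2 : (1 : ℝ) ≤ n := by exact_mod_cast hn
  have h3 : 1 / (6 * (n : ℝ)) ≤ 1 := by
    rw [div_le_one (by positivity)]
    linarith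
  linarith

lemma U_sub {n : ℕ} (hn : 1 ≤ n) : U n ⊆ SQ := by
  intro u hu
  have h := U_lt hn hu
  refine ⟨⟨?_, ?_⟩, ⟨?_, ?_⟩⟩ <;> nlinarith [sq_nonneg u.1, sq_nonneg u.2]

lemma region_eq (hGR : S_GR) (hXD : S_XD) (hXF : S_XF) {P : Poly3} {n : ℕ} (hn : 1 ≤ n) {Q : Poly}
    (hQ : ∀ u : ℝ × ℝ, ev Q u = w u ^ n *
      ev3 P (2 * u.1 / w u) (2 * u.2 / w u) (1 - 2 / w u)) {s s' : ℝ} {p q p' q' : Poly}
    (hp : ∀ u : ℝ × ℝ, u.1 ^ 2 + u.2 ^ 2 < 1 → (X u ∈ RG P s ↔ 0 < ev p u ∧ 0 < ev q u))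
    (hp' : ∀ u : ℝ × ℝ, u.1 ^ 2 + u.2 ^ 2 < 1 → (X u ∈ RG P s' ↔ 0 < ev p' u ∧ 0 < ev q' u))
    (b : Bool) : U n ∩ (X ⁻¹' (RG P s \ RG P s') ∩ HF b P) =
      RR n p q p' q' (dn n Q - dn' n Q) (dn n Q + dn' n Q) b := by
  ext ⟨x, y⟩
  constructor
  · rintro ⟨hU, ⟨h1, h2⟩, h3⟩
    have hu := U_lt hn hU
    refine ⟨(ev_pU n _).2 hU, (hp _ hu).1 h1, fun h => h2 ((hp' _ hu).2 h), ?_⟩
    obtain ⟨g1, g2⟩ := grad_eq hGR hXD hXF hQ x y hu
    have hw := pow_pos (w_pos (x, y)) (n + 1)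
    unfold HF at h3
    cases b
    · simp only [Bool.false_eq_true, if_false, mem_ofPred_eq] at h3 ⊢
      rw [g1, g2, abs_div, abs_div, div_le_div_iff_of_pos_right (abs_pos.2 hw.ne'),
        ← sq_le_sq] at h3
      rw [ev_sub, ev_add]
      nlinarith
    · simp only [if_true, mem_ofPred_eq] at h3 ⊢
      rw [g1, g2, abs_div, abs_div, div_lt_div_iff_of_pos_right (abs_pos.2 hw.ne'),
        ← sq_lt_sq] at h3
      rw [ev_sub, ev_add]
      nlinarith
  · rintro ⟨hU, h1, h2, h3⟩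
    have hU' := (ev_pU n _).1 hU
    have hu := U_lt hn hU'
    refine ⟨hU', ⟨(hp _ hu).2 h1, fun h => h2 ((hp' _ hu).1 h)⟩, ?_⟩
    obtain ⟨g1, g2⟩ := grad_eq hGR hXD hXF hQ x y hu
    have hw := pow_pos (w_pos (x, y)) (n + 1)
    unfold HF
    cases b
    · simp only [Bool.false_eq_true, if_false, mem_ofPred_eq] at h3 ⊢
      rw [g1, g2, abs_div, abs_div, div_le_div_iff_of_pos_right (abs_pos.2 hw.ne'), ← sq_le_sq]
      rw [ev_sub, ev_add] at h3
      nlinarith
    · simp only [if_true, mem_ofPred_eq] at h3 ⊢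
      rw [g1, g2, abs_div, abs_div, div_lt_div_iff_of_pos_right (abs_pos.2 hw.ne'), ← sq_lt_sq]
      rw [ev_sub, ev_add] at h3
      nlinarith

/-- the exceptional lines -/
def EL (n : ℕ) (P : Poly3) (s lam : ℝ) : Set ℝ :=
  {b : ℝ | ∃ a : ℝ, (a, b) ∈ U n ∧ |g1 P (X (a, b))| < 2 * lam ∧
    |g2 P (X (a, b))| < 2 * lam ∧ X (a, b) ∈ RG P s}

lemma CS_div {F W : ℝ → ℝ} {u v : ℝ} (h : CS F u v) (hW : ∀ x, 0 < W x) :
    CS (fun x => F x / W x) u v := by
  rcases h with h | h | h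
  · exact Or.inl fun x hx => div_pos (h x hx) (hW x)
  · exact Or.inr (Or.inl fun x hx => by simp only [h x hx, zero_div])
  · exact Or.inr (Or.inr fun x hx => div_neg_of_neg_of_pos (h x hx) (hW x))

/-- **the estimate on a line** -/
lemma line_est (hGR : S_GR) (hXD : S_XD) (hXF : S_XF) {P : Poly3} {n : ℕ} (hn : 1 ≤ n) {Q : Poly}
    (hQd : Q.totalDegree ≤ 2 * n)
    (hQ : ∀ u : ℝ × ℝ, ev Q u = w u ^ n *
      ev3 P (2 * u.1 / w u) (2 * u.2 / w u) (1 - 2 / w u)) {s s' : ℝ} {p q p' q' : Poly}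
    (dp : p.totalDegree ≤ 8 * n + 24) (dq : q.totalDegree ≤ 8 * n + 24)
    (dp' : p'.totalDegree ≤ 8 * n + 24) (dq' : q'.totalDegree ≤ 8 * n + 24)
    (hp : ∀ u : ℝ × ℝ, u.1 ^ 2 + u.2 ^ 2 < 1 → (X u ∈ RG P s ↔ 0 < ev p u ∧ 0 < ev q u))
    (hp' : ∀ u : ℝ × ℝ, u.1 ^ 2 + u.2 ^ 2 < 1 → (X u ∈ RG P s' ↔ 0 < ev p' u ∧ 0 < ev q' u))
    (b : Bool) (lam : ℝ) (hl : 0 < lam) (y : ℝ) (hy : y ∉ EL n P s lam) :
    ‖∫ x in (-1 : ℝ)..1, (RR n p q p' q' (dn n Q - dn' n Q) (dn n Q + dn' n Q) b).indicator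
      (fun u => ((jac u : ℝ) : ℂ) * cexp ((Ps P u : ℂ) * I)) (x, y)‖ ≤
      30000 * n / lam := by
  set a1 := dn n Q - dn' n Q with ha1
  set a2 := dn n Q + dn' n Q with ha2
  set R := RR n p q p' q' a1 a2 b with hR
  have hreg := region_eq hGR hXD hXF hn hQ hp hp' b
  have d1 : (dn n Q).totalDegree ≤ 2 * n + 2 := deg_dn hQd
  have d2 : (dn' n Q).totalDegree ≤ 2 * n + 2 := deg_dn' hQd
  obtain ⟨Z, hZc, hZ⟩ := cuts ![pU n, p, q, p', q', a1, a2, dn (n + 1) (dn n Q)]
    (38 * n + 106) (by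
      rw [Fin.sum_univ_eight]
      have h1 := deg_pU n
      have h2 : a1.totalDegree ≤ 2 * n + 2 := deg_sub d1 d2
      have h3 : a2.totalDegree ≤ 2 * n + 2 := deg_add d1 d2
      have h4 : (dn (n + 1) (dn n Q)).totalDegree ≤ 2 * n + 4 := deg_dn d1
      simp only [Matrix.cons_val]
      omega) y
  set Sy : Set ℝ := {x | (x, y) ∈ R} with hSy
  have hSm : MeasurableSet Sy := (RR_meas n p q p' q' a1 a2 b).preimage (by fun_prop)
  have hwc : ∀ m : ℕ, ∀ x : ℝ, 0 < w (x, y) ^ m := fun m x => pow_pos (w_pos _) m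
  have key := line (fun x => ev Q (x, y) / w (x, y) ^ n)
    (fun x => ev (dn n Q) (x, y) / w (x, y) ^ (n + 1))
    (fun x => ev (dn (n + 1) (dn n Q)) (x, y) / w (x, y) ^ (n + 1 + 1))
    (fun x => dn_deriv n Q x y) (fun x => dn_deriv (n + 1) (dn n Q) x y)
    (((ev_cont _).comp (by fun_prop)).div ((w_cont.comp (by fun_prop)).pow _)
      fun x => (hwc _ x).ne') Sy hSm (38 * n + 106) Z hZc (by
        intro u v hZu
        have hcs := hZ u v hZu
        refine ⟨fun x hx x' hx' => ?_, CS_div (hcs 7) (hwc _)⟩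
        have t0 := CS_pos (hcs 0) hx hx'
        have t1 := CS_pos (hcs 1) hx hx'
        have t2 := CS_pos (hcs 2) hx hx'
        have t3 := CS_pos (hcs 3) hx hx'
        have t4 := CS_pos (hcs 4) hx hx'
        have t5 := CS_pos (CS_mul (hcs 5) (hcs 6)) hx hx'
        have t6 := CS_nonneg (CS_mul (hcs 5) (hcs 6)) hx hx'
        simp only [Matrix.cons_val] at t0 t1 t2 t3 t4 t5 t6
        simp only [hSy, hR, RR, mem_ofPred_eq, t0, t1, t2, t3, t4, t5, t6])
    (fun x => ((jac (x, y) : ℝ) : ℂ))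
    (Complex.measurable_ofReal.comp (jac_cont.measurable.comp (by fun_prop))) 4 64 (by norm_num)
    (by norm_num) (fun x => by
      rw [Complex.norm_real, Real.norm_eq_abs]
      exact jac_le _) (jac_var y) lam hl (by
        intro x hx
        have hx' : (x, y) ∈ U n ∩ (X ⁻¹' (RG P s \ RG P s') ∩ HF b P) := by
          rw [hreg]
          exact hx
        obtain ⟨hU, ⟨hx1, hx2⟩, hx3⟩ := hx'
        obtain ⟨e1, e2⟩ := grad_eq hGR hXD hXF hQ x y (U_lt hn hU)
        rw [← e1]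
        by_contra hc
        push Not at hc
        apply hy
        have hE2 : |Eu2 P (x, y)| < lam := by
          refine lt_of_le_of_lt ?_ hc
          unfold HF at hx3
          cases b
          · simpa using hx3
          · have : |Eu2 P (x, y)| < |Eu1 P (x, y)| := by simpa using hx3
            exact this.le
        have h3 := hXF.2.2.1 n hn (x, y) hU (g1 P (X (x, y))) (g2 P (X (x, y)))
        have h4 : Eu1 P (x, y) ^ 2 < lam ^ 2 := sq_lt_sq.2 (by rwa [abs_of_pos hl])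
        have h5 : Eu2 P (x, y) ^ 2 < lam ^ 2 := sq_lt_sq.2 (by rwa [abs_of_pos hl])
        unfold Eu1 at h4
        unfold Eu2 at h5
        refine ⟨x, hU, ?_, ?_, hx1⟩
        · have h6 : g1 P (X (x, y)) ^ 2 < (2 * lam) ^ 2 := by
            nlinarith [sq_nonneg (g2 P (X (x, y)))]
          have h7 := sq_lt_sq.1 h6
          rwa [abs_of_pos (by positivity : (0 : ℝ) < 2 * lam)] at h7
        · have h6 : g2 P (X (x, y)) ^ 2 < (2 * lam) ^ 2 := by
            nlinarith [sq_nonneg (g1 P (X (x, y)))]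
          have h7 := sq_lt_sq.1 h6
          rwa [abs_of_pos (by positivity : (0 : ℝ) < 2 * lam)] at h7)
  have hfun : (fun x : ℝ => R.indicator
      (fun u => ((jac u : ℝ) : ℂ) * cexp ((Ps P u : ℂ) * I)) (x, y)) =
      Sy.indicator (fun x => ((jac (x, y) : ℝ) : ℂ) *
        cexp (((ev Q (x, y) / w (x, y) ^ n : ℝ) : ℂ) * I)) := by
    funext x
    by_cases h : (x, y) ∈ R
    · rw [indicator_of_mem h, indicator_of_mem (show x ∈ Sy from h), Ps_eq hQ]
    · rw [indicator_of_notMem h, indicator_of_notMem (show x ∉ Sy from h)]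
  rw [hfun]
  refine key.trans ?_
  have hn' : (1 : ℝ) ≤ n := by exact_mod_cast hn
  have e1 : (((38 * n + 106 : ℕ) : ℝ) + 1) * (3 / lam * (4 + 64)) =
      (((38 * n + 106 : ℕ) : ℝ) + 1) * 204 / lam := by ring
  rw [e1]
  apply div_le_div_of_nonneg_right _ hl.le
  push_cast
  nlinarith

/-! ### Summation -/

lemma setInt_eq (n : ℕ) (hn : 1 ≤ n) (R : Set (ℝ × ℝ)) (f : ℝ × ℝ → ℂ) :
    ∫ u in U n, R.indicator f u = ∫ u in SQ, (U n ∩ R).indicator f u := by
  have hUm : MeasurableSet (U n) := by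
    unfold U
    exact (isOpen_lt (by fun_prop) continuous_const).measurableSet
  rw [← integral_indicator hUm, ← integral_indicator SQ_meas, indicator_indicator,
    indicator_indicator, ← inter_assoc, inter_eq_right.2 (U_sub hn)]

lemma trivial_bound (n : ℕ) (hn : 1 ≤ n) (R : Set (ℝ × ℝ)) (P : Poly3) :
    ‖∫ u in U n, R.indicator (fun u => ((jac u : ℝ) : ℂ) * cexp ((Ps P u : ℂ) * I)) u‖ ≤ 16 := by
  have hb : ∀ u, ‖R.indicator (fun u => ((jac u : ℝ) : ℂ) * cexp ((Ps P u : ℂ) * I)) u‖ ≤ 4 := by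
    intro u
    by_cases h : u ∈ R
    · rw [indicator_of_mem h, norm_mul, Complex.norm_exp_ofReal_mul_I, mul_one, Complex.norm_real,
        Real.norm_eq_abs]
      exact jac_le u
    · rw [indicator_of_notMem h, norm_zero]
      norm_num
  have hv : (volume : Measure (ℝ × ℝ)) SQ = 4 := by
    unfold SQ
    rw [Measure.volume_eq_prod, Measure.prod_prod, Real.volume_Icc,
      ← ENNReal.ofReal_mul (by norm_num)]
    norm_num
  have hvU : (volume : Measure (ℝ × ℝ)) (U n) ≤ 4 := by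
    rw [← hv]
    exact measure_mono (U_sub hn)
  have hlt : (volume : Measure (ℝ × ℝ)) (U n) < ∞ := hvU.trans_lt (by norm_num)
  have h1 := norm_setIntegral_le_of_norm_le_const (μ := volume) hlt
    (fun u (_ : u ∈ U n) => hb u)
  refine h1.trans ?_
  have h2 : volume.real (U n) ≤ 4 := by
    unfold Measure.real
    have := ENNReal.toReal_mono (by norm_num) hvU
    simpa using this
  nlinarith [measureReal_nonneg (μ := (volume : Measure (ℝ × ℝ))) (s := U n)]

theorem sh (hGR : S_GR) (hXD : S_XD) (hXF : S_XF) (hHT : S_HT) (hRP : S_RP) (hEX : S_EX) :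
    S_SH := by
  obtain ⟨CE, hCE, hE⟩ := hEX
  refine ⟨8 * CE + 60000 * CE + 12000000, by positivity, ?_⟩
  intro n P j s' b hn hP
  have hn' : (1 : ℝ) ≤ n := by exact_mod_cast hn
  set C : ℝ := 8 * CE + 60000 * CE + 12000000 with hC
  have h2j : (0 : ℝ) < 2 ^ j := by positivity
  by_cases hcase : (2 : ℝ) ^ j < 200 * n
  · -- small frequencies
    refine (trivial_bound n hn _ P).trans ?_
    rw [le_div_iff₀ h2j]
    have h1 : (16 : ℝ) * 2 ^ j ≤ 3200 * n := by linarith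
    have h2 : (n : ℝ) ≤ n ^ 5 := by
      have := pow_le_pow_right₀ hn' (show 1 ≤ 5 by norm_num)
      simpa using this
    have h3 : (0 : ℝ) ≤ j := Nat.cast_nonneg j
    have h4 : (3200 : ℝ) ≤ C := by rw [hC]; linarith
    have h5 : 3200 * (n : ℝ) ≤ C * n ^ 5 := mul_le_mul h4 h2 (by linarith) (by linarith)
    have h6 : 0 ≤ C * (n : ℝ) ^ 5 * j := by positivity
    nlinarith
  push Not at hcase
  -- large frequencies
  obtain ⟨Q, hQd, hQ⟩ := hHT P n hP
  obtain ⟨p, q, dp, dq, hp⟩ := hRP P n (2 ^ j) hP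
  obtain ⟨p', q', dp', dq', hp'⟩ := hRP P n s' hP
  rw [setInt_eq n hn, region_eq hGR hXD hXF hn hQ hp hp' b]
  set R := RR n p q p' q' (dn n Q - dn' n Q) (dn n Q + dn' n Q) b with hR
  have hRm : MeasurableSet R := RR_meas _ _ _ _ _ _ _ _
  set F : ℝ × ℝ → ℂ := R.indicator (fun u => ((jac u : ℝ) : ℂ) * cexp ((Ps P u : ℂ) * I)) with hF
  have hPsc : Continuous (Ps P) := by
    have : Ps P = fun u => ev Q u / w u ^ n := funext fun u => Ps_eq hQ u
    rw [this]
    exact (ev_cont Q).div (w_cont.pow n) fun u => (pow_pos (w_pos u) n).ne'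
  have hFm : Measurable F := by
    refine Measurable.indicator ?_ hRm
    exact ((continuous_ofReal.comp jac_cont).mul (Complex.continuous_exp.comp
      ((continuous_ofReal.comp hPsc).mul continuous_const))).measurable
  have hFb : ∀ z, ‖F z‖ ≤ 4 := by
    intro u
    simp only [hF]
    by_cases h : u ∈ R
    · rw [indicator_of_mem h, norm_mul, Complex.norm_exp_ofReal_mul_I, mul_one, Complex.norm_real,
        Real.norm_eq_abs]
      exact jac_le u
    · rw [indicator_of_notMem h, norm_zero]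
      norm_num
  have hvolIcc : (volume : Measure ℝ).restrict (Icc (-1) 1) univ = 2 := by
    rw [Measure.restrict_apply_univ, Real.volume_Icc]
    norm_num
  have hres : (volume : Measure (ℝ × ℝ)).restrict SQ =
      (volume.restrict (Icc (-1 : ℝ) 1)).prod (volume.restrict (Icc (-1 : ℝ) 1)) := by
    rw [Measure.prod_restrict, ← Measure.volume_eq_prod]
    rfl
  have hFi : Integrable F ((volume.restrict (Icc (-1 : ℝ) 1)).prod
      (volume.restrict (Icc (-1 : ℝ) 1))) :=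
    Integrable.of_bound hFm.aestronglyMeasurable 4 (ae_of_all _ hFb)
  obtain ⟨J, hJ1, hJ2⟩ := exists_nat_pow_near (x := (2 : ℝ) ^ j / (100 * n)) (y := 2)
    (by rw [le_div_iff₀ (by positivity)]; linarith) (by norm_num)
  have hJj : J ≤ j := by
    have h1 : (2 : ℝ) ^ J ≤ 2 ^ j := by
      refine hJ1.trans (div_le_self h2j.le ?_)
      linarith
    exact (pow_le_pow_iff_right₀ (by norm_num : (1 : ℝ) < 2)).1 h1
  set K : ℝ := 30000 * n with hK
  have hK0 : 0 ≤ K := by positivity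
  -- measurable hulls of the exceptional sets
  set T : ℕ → Set ℝ := fun k => toMeasurable volume (EL n P (2 ^ j) (2 ^ k)) with hT
  have hTm : ∀ k, MeasurableSet (T k) := fun k => measurableSet_toMeasurable _ _
  have hTv : ∀ k ≤ J, volume (T k) ≤ ENNReal.ofReal (CE * n ^ 4 * 2 ^ k / 2 ^ j) := by
    intro k hk
    simp only [hT]
    rw [measure_toMeasurable]
    refine hE n P (2 ^ j) (2 ^ k) hn hP (by positivity) ?_
    exact (pow_le_pow_right₀ (by norm_num) hk).trans hJ1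
  classical
  have hpt : ∀ y : ℝ, ‖∫ x in Icc (-1 : ℝ) 1, F (x, y)‖ₑ ≤
      (if y ∈ T 0 then ENNReal.ofReal 8 else 0) +
      ∑ k ∈ Finset.range J, (if y ∈ T (k + 1) then ENNReal.ofReal (K / 2 ^ k) else 0) +
      ENNReal.ofReal (K / 2 ^ J) := by
    intro y
    refine tele _ _ (fun k => ENNReal.ofReal (K / 2 ^ k)) (fun k => y ∈ T k) ?_ ?_ J
    · have h1 : ‖∫ x in Icc (-1 : ℝ) 1, F (x, y)‖ ≤ 4 * (volume.restrict (Icc (-1 : ℝ) 1)).real univ :=
        norm_integral_le_of_norm_le_const (ae_of_all _ fun x => hFb (x, y))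
      rw [← ofReal_norm]
      apply ENNReal.ofReal_le_ofReal
      refine h1.trans (le_of_eq ?_)
      rw [Measure.real, hvolIcc]
      norm_num
    · intro k hk
      have hk' : y ∉ EL n P (2 ^ j) (2 ^ k) := fun h => hk (subset_toMeasurable _ _ h)
      have h1 := line_est hGR hXD hXF hn hQd hQ dp dq dp' dq' hp hp' b (2 ^ k) (by positivity) y hk'
      rw [← ofReal_norm]
      apply ENNReal.ofReal_le_ofReal
      rw [integral_Icc_eq_integral_Ioc, ← intervalIntegral.integral_of_le (by norm_num)]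
      exact h1
  rw [hres, integral_prod_symm _ hFi, ← ENNReal.ofReal_le_ofReal_iff (by positivity), ofReal_norm]
  refine (enorm_integral_le_lintegral_enorm _).trans ?_
  refine (lintegral_mono hpt).trans ?_
  have hme : ∀ k : ℕ, ∀ c : ℝ≥0∞, Measurable fun y => if y ∈ T k then c else 0 :=
    fun k c => Measurable.ite (hTm k) measurable_const measurable_const
  have hin : ∀ k ≤ J, ∀ c : ℝ, 0 ≤ c → ∫⁻ y in Icc (-1 : ℝ) 1,
      (if y ∈ T k then ENNReal.ofReal c else 0) ≤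
      ENNReal.ofReal (c * (CE * n ^ 4 * 2 ^ k / 2 ^ j)) := by
    intro k hkJ c hc
    have e1 : (fun y => if y ∈ T k then ENNReal.ofReal c else 0) =
        (T k).indicator fun _ => ENNReal.ofReal c := by
      ext y
      rw [indicator_apply]
    rw [e1]
    calc ∫⁻ y in Icc (-1 : ℝ) 1, (T k).indicator (fun _ => ENNReal.ofReal c) y ≤
        ∫⁻ y, (T k).indicator (fun _ => ENNReal.ofReal c) y :=
          lintegral_mono' Measure.restrict_le_self le_rfl
      _ = ENNReal.ofReal c * volume (T k) := lintegral_indicator_const (hTm k) _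
      _ ≤ ENNReal.ofReal c * ENNReal.ofReal (CE * n ^ 4 * 2 ^ k / 2 ^ j) := by
          gcongr
          exact hTv k hkJ
      _ = _ := by rw [← ENNReal.ofReal_mul hc]
  rw [lintegral_add_right _ measurable_const, lintegral_add_left (hme 0 _),
    lintegral_finsetSum _ (fun k _ => hme (k + 1) _)]
  have i0 := hin 0 (Nat.zero_le _) 8 (by norm_num)
  have ik : ∑ k ∈ Finset.range J, ∫⁻ y in Icc (-1 : ℝ) 1,
      (if y ∈ T (k + 1) then ENNReal.ofReal (K / 2 ^ k) else 0) ≤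
      ENNReal.ofReal (J * (2 * K * (CE * n ^ 4) / 2 ^ j)) := by
    refine (Finset.sum_le_sum fun k hk => hin (k + 1)
      (Nat.succ_le_of_lt (Finset.mem_range.1 hk)) (K / 2 ^ k) (by positivity)).trans ?_
    have e1 : ∀ k ∈ Finset.range J, ENNReal.ofReal (K / 2 ^ k * (CE * n ^ 4 * 2 ^ (k + 1) / 2 ^ j)) =
        ENNReal.ofReal (2 * K * (CE * n ^ 4) / 2 ^ j) := by
      intro k _
      congr 1
      field_simp
      ring
    rw [Finset.sum_congr rfl e1, Finset.sum_const, Finset.card_range, nsmul_eq_mul,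
      ← ENNReal.ofReal_natCast, ← ENNReal.ofReal_mul (by positivity)]
  have il : ∫⁻ _y in Icc (-1 : ℝ) 1, ENNReal.ofReal (K / 2 ^ J) ≤
      ENNReal.ofReal (400 * K * n / 2 ^ j) := by
    rw [lintegral_const, hvolIcc, show (2 : ℝ≥0∞) = ENNReal.ofReal 2 by norm_num,
      ← ENNReal.ofReal_mul (by positivity)]
    apply ENNReal.ofReal_le_ofReal
    have h1 : (2 : ℝ) ^ j < 2 ^ (J + 1) * (100 * n) := by
      rwa [div_lt_iff₀ (by positivity)] at hJ2
    rw [pow_succ] at h1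
    have h2 : (0 : ℝ) < 2 ^ J := by positivity
    rw [div_mul_eq_mul_div, div_le_div_iff₀ h2 h2j]
    nlinarith [mul_nonneg hK0 (sub_nonneg.2 h1.le)]
  refine (add_le_add (add_le_add i0 ik) il).trans ?_
  rw [← ENNReal.ofReal_add (by positivity) (by positivity), ← ENNReal.ofReal_add (by positivity)
    (by positivity)]
  apply ENNReal.ofReal_le_ofReal
  have e2 : 8 * (CE * n ^ 4 * 2 ^ 0 / 2 ^ j) + J * (2 * K * (CE * n ^ 4) / 2 ^ j) +
      400 * K * n / 2 ^ j = (8 * (CE * n ^ 4) + J * (60000 * (CE * (n : ℝ) ^ 5)) +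
        12000000 * (n : ℝ) ^ 2) / 2 ^ j := by
    rw [pow_zero, hK]
    ring
  rw [e2]
  apply div_le_div_of_nonneg_right _ h2j.le
  have h45 : (n : ℝ) ^ 4 ≤ n ^ 5 := pow_le_pow_right₀ hn' (by norm_num)
  have h25 : (n : ℝ) ^ 2 ≤ n ^ 5 := pow_le_pow_right₀ hn' (by norm_num)
  have hJj' : (J : ℝ) ≤ j := by exact_mod_cast hJj
  have hj0 : (0 : ℝ) ≤ j := Nat.cast_nonneg j
  have t1 : 8 * (CE * (n : ℝ) ^ 4) ≤ 8 * (CE * n ^ 5) := by
    have := mul_le_mul_of_nonneg_left h45 hCE.le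
    linarith
  have t2 : (J : ℝ) * (60000 * (CE * (n : ℝ) ^ 5)) ≤ j * (60000 * (CE * (n : ℝ) ^ 5)) :=
    mul_le_mul_of_nonneg_right hJj' (by positivity)
  have t3 : 0 ≤ CE * (n : ℝ) ^ 5 := by positivity
  have t4 : 0 ≤ CE * (n : ℝ) ^ 5 * j := by positivity
  have t5 : 0 ≤ (n : ℝ) ^ 5 * j := by positivity
  rw [hC]
  nlinarith

end Pool.Agent.Y739.SS
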